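import Mathlib

/-!
# Chebyshev lower bound for the coded families (project T4, MP_12a1af_nt)
-/

set_option autoImplicit false
open Finset

namespace Pool.Agent.Helper75.T4

/-- `π(N-1) ≥ N / (12 log N)` -/
theorem primes_ge (N : ℕ) (hN : 3 ≤ N) :
    (N : ℝ) ≤ 12 * Real.log N * ((Finset.range N).filter Nat.Prime).card := by
  obtain ⟨n, rfl⟩ : ∃ n, N = n + 1 := ⟨N - 1, by omega⟩
  have hcard : ((Finset.range (n + 1)).filter Nat.Prime).card = Nat.primeCounting n := by
    rw [Nat.primeCounting, Nat.primeCounting', Nat.count_eq_card_filter_range]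
  rw [hcard]
  have hn2 : (2 : ℝ) ≤ n := by
    have : 2 ≤ n := by omega
    exact_mod_cast this
  have h1 := Chebyshev.psi_ge n
  have h2 := Chebyshev.psi_le_primeCounting_mul_log n
  have hlog : Real.log n ≤ Real.log ((n : ℝ) + 1) := Real.log_le_log (by linarith) (by linarith)
  have hl2 : (0.6931 : ℝ) < Real.log 2 := by linarith [Real.log_two_gt_d9]
  have hl3 : Real.log 3 < 1.1 := by
    rw [Real.log_lt_iff_lt_exp (by norm_num)]
    have h := Real.exp_one_gt_d9
    have h0 : Real.exp 1.1 = Real.exp 1 * Real.exp 0.1 := by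
      rw [← Real.exp_add]; norm_num
    have h9 : (1.105 : ℝ) ≤ Real.exp 0.1 := by
      have := Real.quadratic_le_exp_of_nonneg (x := 0.1) (by norm_num)
      norm_num at this ⊢
      linarith
    rw [h0]
    nlinarith
  have h3 : Real.log ((n : ℝ) + 1) ≤ 1.1 + ((n : ℝ) - 2) / 3 := by
    have e : (n : ℝ) + 1 = 3 * (1 + ((n : ℝ) - 2) / 3) := by ring
    rw [e, Real.log_mul (by norm_num) (by nlinarith)]
    have := Real.add_one_le_exp (((n : ℝ) - 2) / 3)
    have h4 : Real.log (1 + ((n : ℝ) - 2) / 3) ≤ ((n : ℝ) - 2) / 3 := by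
      rw [Real.log_le_iff_le_exp (by nlinarith)]
      linarith
    linarith
  have hpos : (0 : ℝ) ≤ Nat.primeCounting n := by positivity
  have h5 : (n : ℝ) * Real.log 2 - Real.log ((n : ℝ) + 1) ≤
      (Nat.primeCounting n : ℝ) * Real.log ((n : ℝ) + 1) := by
    calc (n : ℝ) * Real.log 2 - Real.log ((n : ℝ) + 1) ≤ Chebyshev.psi n := by exact_mod_cast h1
      _ ≤ (Nat.primeCounting n : ℝ) * Real.log n := by exact_mod_cast h2
      _ ≤ _ := mul_le_mul_of_nonneg_left hlog hpos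
  push_cast
  nlinarith [h5, h3, hl2, hn2]

/-- the primes `x ≠ p` with `x ^ 2 < p ^ a` -/
def PX (p a : ℕ) : Finset ℕ := (Finset.range (p ^ a)).filter fun x => x.Prime ∧ x ≠ p ∧ x ^ 2 < p ^ a

theorem mem_PX {p a x : ℕ} : x ∈ PX p a ↔ x.Prime ∧ x ≠ p ∧ x ^ 2 < p ^ a := by
  unfold PX
  rw [Finset.mem_filter, Finset.mem_range]
  constructor
  · rintro ⟨_, h⟩; exact h
  · intro h
    refine ⟨?_, h⟩
    have h1 := h.1.two_le
    nlinarith [h.2.2]

theorem PX_mono {p a b : ℕ} (hp : 1 ≤ p) (hab : a ≤ b) : PX p a ⊆ PX p b := by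
  intro x hx
  rw [mem_PX] at hx ⊢
  exact ⟨hx.1, hx.2.1, hx.2.2.trans_le (Nat.pow_le_pow_right hp hab)⟩

/-- upper bound: at most `√(p^a)` elements -/
theorem card_PX_le (p a : ℕ) : ((PX p a).card : ℝ) ≤ Real.sqrt ((p : ℝ) ^ a) := by
  have h1 : PX p a ⊆ (Finset.range (Nat.sqrt (p ^ a) + 1)).erase 0 := by
    intro x hx
    rw [mem_PX] at hx
    rw [Finset.mem_erase, Finset.mem_range]
    refine ⟨hx.1.pos.ne', ?_⟩
    have : x ≤ Nat.sqrt (p ^ a) := by
      rw [Nat.le_sqrt']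
      exact hx.2.2.le
    omega
  have h2 := Finset.card_le_card h1
  have h3 : ((Finset.range (Nat.sqrt (p ^ a) + 1)).erase 0).card = Nat.sqrt (p ^ a) := by
    rw [Finset.card_erase_of_mem (by simp), Finset.card_range]; rfl
  rw [h3] at h2
  calc ((PX p a).card : ℝ) ≤ (Nat.sqrt (p ^ a) : ℝ) := by exact_mod_cast h2
    _ ≤ Real.sqrt ((p ^ a : ℕ) : ℝ) := Real.nat_sqrt_le_real_sqrt
    _ = _ := by push_cast; rfl

/-- lower bound: at least `√(p^a) / (C a)` elements once `p ^ a ≥ 2 ^ 14` -/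
theorem card_PX_ge (p a : ℕ) (hp : 2 ≤ p) (ha : 2 ^ 14 ≤ p ^ a) :
    Real.sqrt ((p : ℝ) ^ a) ≤ 48 * (a * Real.log p) * (PX p a).card := by
  set s := Nat.sqrt (p ^ a - 1) with hs
  -- primes up to `s`
  have hpa : 1 ≤ p ^ a := Nat.one_le_pow _ _ (by omega)
  have hs1 : s ^ 2 ≤ p ^ a - 1 := by rw [sq]; exact Nat.sqrt_le _
  have hs2 : p ^ a ≤ (s + 1) ^ 2 := by
    have := Nat.sqrt_lt_self (n := 2) (by norm_num)
    have h := Nat.lt_succ_sqrt (p ^ a - 1)
    rw [← hs] at h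
    have : p ^ a - 1 < (s + 1) * (s + 1) := h
    rw [sq]; omega
  have hsub : ((Finset.range (s + 1)).filter Nat.Prime).erase p ⊆ PX p a := by
    intro x hx
    rw [Finset.mem_erase, Finset.mem_filter, Finset.mem_range] at hx
    rw [mem_PX]
    refine ⟨hx.2.2, hx.1, ?_⟩
    have : x ≤ s := by omega
    have : x ^ 2 ≤ s ^ 2 := Nat.pow_le_pow_left this 2
    omega
  have hs127 : 127 ≤ s := by
    by_contra hc
    have : (s + 1) ^ 2 ≤ 127 ^ 2 := Nat.pow_le_pow_left (by omega) 2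
    have : p ^ a ≤ 127 ^ 2 := hs2.trans this
    have h14 : (2 : ℕ) ^ 14 = 16384 := by norm_num
    omega
  have h1 := primes_ge (s + 1) (by omega)
  have hcard := Finset.card_le_card hsub
  have hcard2 : ((Finset.range (s + 1)).filter Nat.Prime).card ≤ (PX p a).card + 1 := by
    have := Finset.pred_card_le_card_erase (s := (Finset.range (s + 1)).filter Nat.Prime) (a := p)
    omega
  have hsR : (127 : ℝ) ≤ s := by exact_mod_cast hs127
  -- log (s+1) ≤ log (p^a)
  have hlogs : Real.log ((s + 1 : ℕ) : ℝ) ≤ a * Real.log p := by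
    rw [← Real.log_pow]
    apply Real.log_le_log (by positivity)
    have : s + 1 ≤ p ^ a := by
      have h8 : s * s ≤ p ^ a - 1 := by rw [← sq]; exact hs1
      have h9 : 2 * s ≤ s * s := Nat.mul_le_mul_right s (by omega)
      omega
    exact_mod_cast this
  -- 2 * 12 * log (s+1) ≤ s + 1
  have hlog24 : 24 * Real.log ((s + 1 : ℕ) : ℝ) ≤ (s + 1 : ℕ) := by
    push_cast
    have hl2 : Real.log 2 < 0.6932 := by linarith [Real.log_two_lt_d9]
    have e : (s : ℝ) + 1 = 128 * (1 + ((s : ℝ) + 1 - 128) / 128) := by ring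
    have h128 : Real.log 128 = 7 * Real.log 2 := by
      have : (128 : ℝ) = 2 ^ 7 := by norm_num
      rw [this, Real.log_pow]; norm_num
    have h4 : Real.log (1 + ((s : ℝ) + 1 - 128) / 128) ≤ ((s : ℝ) + 1 - 128) / 128 := by
      rw [Real.log_le_iff_le_exp (by linarith)]
      linarith [Real.add_one_le_exp (((s : ℝ) + 1 - 128) / 128)]
    have h5 : Real.log ((s : ℝ) + 1) ≤ 7 * Real.log 2 + ((s : ℝ) + 1 - 128) / 128 := by
      rw [e, Real.log_mul (by norm_num) (by linarith), h128]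
      have e2 : 128 * (1 + ((s : ℝ) + 1 - 128) / 128) + 0 = (s : ℝ) + 1 := by ring
      have e3 : (128 * (1 + ((s : ℝ) + 1 - 128) / 128) - 128) / 128 = ((s : ℝ) + 1 - 128) / 128 := by
        ring
      rw [e3]
      linarith
    linarith
  have hL0 : 0 < Real.log ((s + 1 : ℕ) : ℝ) := Real.log_pos (by push_cast; linarith)
  have hc2 : (((Finset.range (s + 1)).filter Nat.Prime).card : ℝ) ≤ (PX p a).card + 1 := by
    exact_mod_cast hcard2
  have hsq : Real.sqrt ((p : ℝ) ^ a) ≤ (s + 1 : ℕ) := by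
    rw [Real.sqrt_le_left (by positivity)]
    exact_mod_cast hs2
  have hX0 : (0 : ℝ) ≤ (PX p a).card := by positivity
  have h6 : ((s + 1 : ℕ) : ℝ) ≤ 24 * Real.log ((s + 1 : ℕ) : ℝ) * (PX p a).card := by
    have h7 : ((s + 1 : ℕ) : ℝ) ≤ 12 * Real.log ((s + 1 : ℕ) : ℝ) * ((PX p a).card + 1) :=
      h1.trans (mul_le_mul_of_nonneg_left hc2 (by positivity))
    nlinarith
  calc Real.sqrt ((p : ℝ) ^ a) ≤ (s + 1 : ℕ) := hsq
    _ ≤ 24 * Real.log ((s + 1 : ℕ) : ℝ) * (PX p a).card := h6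
    _ ≤ 24 * (a * Real.log p) * (PX p a).card := by
        apply mul_le_mul_of_nonneg_right _ hX0
        linarith
    _ ≤ _ := by
        have : 0 ≤ (a : ℝ) * Real.log p := hL0.le.trans hlogs
        nlinarith

end Pool.Agent.Helper75.T4
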