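import Pool.Agent.Helper5.ET.Defs
import Pool.Agent.Helper3.T4.Decode

/-!
# T4' (MP_12a1af), block C: few pairs `(x, v)` give the same element
-/

namespace Pool.Agent.Helper75.T4

open Finset Pool.Agent.Helper27.T4 Pool.Agent.Helper5.ET Pool.Agent.Helper3.T4

theorem tau_le_succ (c : ℕ) : tau c ≤ tau (c + 1) := by
  rw [tau]; exact Nat.le_add_right _ _

theorem tau_monotone : Monotone tau := monotone_nat_of_le_succ tau_le_succ

theorem sl_le_se (s : ℕ) : sl s ≤ se s := tau_monotone (by omega)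

theorem cnt_monotone (f : Fin 3) : Monotone (cnt f) := by
  intro i j hij
  apply Finset.card_le_card
  apply Finset.filter_subset_filter
  intro y hy
  rw [Finset.mem_range] at *
  omega

theorem av_monotone : Monotone av := fun _ _ hij f => cnt_monotone f hij

theorem Nj_pos (j : ℕ) : 0 < Nj j := NN_pos pr_prime _

theorem Nj_dvd {i j : ℕ} (h : i ≤ j) : Nj i ∣ Nj j := NN_dvd pr (av_monotone h)

theorem rk_inj {K : ℕ} {f g : Fin 3} (h : rk K f = rk K g) : f = g := by
  unfold rk at h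
  apply Fin.ext
  have h1 := f.isLt
  have h2 := g.isLt
  omega

/-- the hash value of `f` depends only on the coordinates of smaller rank -/
theorem hv_congr (s : ℕ) (w : Key → ℕ) (f : Fin 3) (x y : Fin 3 → ℕ)
    (h : ∀ g, rk (ordK (sl s)) g < rk (ordK (sl s)) f → x g = y g) : hv s w f x = hv s w f y := by
  unfold hv
  have : mask (pre (sl s) f) x = mask (pre (sl s) f) y := by
    funext g
    unfold mask
    by_cases hg : g ∈ pre (sl s) f
    · rw [if_pos hg, if_pos hg]
      unfold pre at hg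
      split_ifs at hg with h1
      · exact absurd hg (Finset.notMem_empty _)
      · exact h g (Finset.mem_filter.1 hg).2
    · rw [if_neg hg, if_neg hg]
  rw [this]

/-- the code modulo `Nj j`, `j ≤ se s`, component by component -/
theorem code_cast (s : ℕ) (w : Key → ℕ) (x : Fin 3 → ℕ) (f : Fin 3) (hx : (x f).Coprime (pr f))
    {j : ℕ} (hj : j ≤ se s) :
    ((code s w x : ℕ) : ZMod (pr f ^ av j f)) =
      Lg (pr f) (av j f) (x f) + ((hv s w f x : ℕ) : ZMod (pr f ^ av j f)) := by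
  have hle : av j f ≤ av (se s) f := cnt_monotone f hj
  have h : ((code s w x : ℕ) : ZMod (pr f ^ av (se s) f)) =
      Lg (pr f) (av (se s) f) (x f) + ((hv s w f x : ℕ) : ZMod (pr f ^ av (se s) f)) :=
    cv_cast_comp pr_prime pr_inj (av (se s)) (cmp s w x) f
  have h1 := congrArg (ZMod.castHom (pow_dvd_pow (pr f) hle) (ZMod (pr f ^ av j f))) h
  rw [map_natCast, map_add, map_natCast, Lg_red (pr_prime f) (pr_ne_two f) _ _ _ hx hle] at h1
  exact h1

theorem mem_XX {s : ℕ} {x : Fin 3 → ℕ} (hx : x ∈ XX s) (f : Fin 3) :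
    (x f).Prime ∧ (x f).Coprime (pr f) ∧ (x f) ^ 2 < pr f ^ cnt f (sl s) := by
  unfold XX at hx
  rw [Fintype.mem_piFinset] at hx
  exact (Finset.mem_filter.1 (hx f)).2

/-- BLOCK C, part 3: at most `10 ^ 21` pairs `(x, v)`, `v ∈ V`, give the same element
(`V` any finite set) -/
theorem card_el_le' (s : ℕ) (w : Key → ℕ) (V : Finset ℕ) (m : ℕ) :
    ((XX s ×ˢ V).filter (fun q => el s w q.1 q.2 = m)).card ≤ (10 ^ 7) ^ 3 := by
  classical
  set T := (XX s ×ˢ V).filter (fun q => el s w q.1 q.2 = m) with hT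
  have hinj : Set.InjOn (fun q : (Fin 3 → ℕ) × ℕ => q.1) (T : Set ((Fin 3 → ℕ) × ℕ)) := by
    rintro ⟨x, v⟩ h1 ⟨y, u⟩ h2 h3
    simp only at h3
    subst h3
    have e1 := (Finset.mem_filter.1 (Finset.mem_coe.1 h1)).2
    have e2 := (Finset.mem_filter.1 (Finset.mem_coe.1 h2)).2
    simp only [el] at e1 e2
    have e3 : Nj (sl s) * v = Nj (sl s) * u := by omega
    rw [Nat.eq_of_mul_eq_mul_left (Nj_pos _) e3]
  rw [← Finset.card_image_of_injOn hinj]
  have key := card_code_le (p := pr) pr_prime pr_ne_two (av (sl s)) (rk (ordK (sl s)))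
    (fun f x => ((hv s w f x : ℕ) : ZMod (pr f ^ av (sl s) f)))
    (fun f x y h => by rw [hv_congr s w f x y h])
    (fun f => ((m : ℕ) : ZMod (pr f ^ av (sl s) f)))
    (T.image (fun q : (Fin 3 → ℕ) × ℕ => q.1)) ?_
  · refine key.trans ?_
    rw [Fin.prod_univ_three]
    change (1000003 - 1) * (1000033 - 1) * (1000037 - 1) ≤ (10 ^ 7) ^ 3
    norm_num
  · intro x hx f
    obtain ⟨⟨x', v⟩, hq, rfl⟩ := Finset.mem_image.1 hx
    obtain ⟨h1, h2⟩ := Finset.mem_filter.1 hq
    obtain ⟨hX, -⟩ := Finset.mem_product.1 h1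
    simp only at hX h2 ⊢
    obtain ⟨-, g2, g3⟩ := mem_XX hX f
    refine ⟨g2, g3, ?_⟩
    rw [← code_cast s w x' f g2 (sl_le_se s), ← h2, el]
    push_cast
    have : ((Nj (sl s) : ℕ) : ZMod (pr f ^ av (sl s) f)) = 0 := by
      rw [ZMod.natCast_eq_zero_iff]
      exact pow_dvd_NN pr (av (sl s)) f
    rw [this, zero_mul, add_zero]

theorem card_el_le (s : ℕ) (w : Key → ℕ) (m : ℕ) :
    ((XX s ×ˢ VV s w).filter (fun q => el s w q.1 q.2 = m)).card ≤ (10 ^ 7) ^ 3 :=
  card_el_le' s w (VV s w) m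

end Pool.Agent.Helper75.T4
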