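import Pool.Agent.Helper75.T4.Inj
import Pool.Agent.Helper50.ET.CountMain
import Pool.Agent.Helper39.ET.CardXX

/-!
# T4' (MP_12a1af): block C
-/

namespace Pool.Agent.Helper75.T4

open Finset Pool.Agent.Helper27.T4 Pool.Agent.Helper5.ET

theorem count_block : ∃ (c : ℝ) (s0 : ℕ), 0 < c ∧ ∀ s ≥ s0, ∀ w : Key → ℕ, (∀ k, w k < Mk k) →
    ∀ κ, sk s < κ → κ ≤ sk (s + 1) →
      c * Real.sqrt (Nj κ) / (sl s : ℝ) ^ 3 ≤ (((AA s w).filter (fun a => a < Nj κ)).card : ℝ) :=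
  Pool.Agent.Helper50.ET.count_of Pool.Agent.Helper39.ET.card_XX_ge card_el_le

theorem AA_range (s : ℕ) (w : Key → ℕ) (a : ℕ) (ha : a ∈ AA s w) :
    Nj (sk s) ≤ a ∧ a < Nj (sk (s + 1)) :=
  Pool.Agent.Helper50.ET.AA_range s w a ha

end Pool.Agent.Helper75.T4
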