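import Pool.Agent.Helper29.T4.FDefs

/-!
# T4' (MP_12a1af), block F, piece (D): counting compatible hits
-/

namespace Pool.Agent.Helper75.T4

open Finset Pool.Agent.Helper27.T4 Pool.Agent.Helper5.ET Pool.Agent.Helper25.T4
  Pool.Agent.Helper29.T4

theorem qq_pos (s : ℕ) (f : Fin 3) : 0 < qq s f := pow_pos (pr_prime f).pos _

theorem qq_dvd_Nj (s : ℕ) (f : Fin 3) : qq s f ∣ Nj (sl s) := pow_dvd_NN pr (av (sl s)) f

theorem lamA_cast (s : ℕ) (f : Fin 3) (x : ℕ) :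
    ((lamA s f x : ℕ) : ZMod (pr f ^ cnt f (se s))) = Lg (pr f) (cnt f (se s)) x := by
  have : NeZero (pr f ^ cnt f (se s)) := ⟨(pow_pos (pr_prime f).pos _).ne'⟩
  exact ZMod.natCast_zmod_val _

/-- the index modulo a smaller power -/
theorem lamA_cast_red (s : ℕ) (f : Fin 3) (x : ℕ) (hx : x.Coprime (pr f)) {b : ℕ}
    (hb : b ≤ cnt f (se s)) : ((lamA s f x : ℕ) : ZMod (pr f ^ b)) = Lg (pr f) b x := by
  have h1 := congrArg (ZMod.castHom (pow_dvd_pow (pr f) hb) (ZMod (pr f ^ b))) (lamA_cast s f x)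
  rw [map_natCast, Lg_red (pr_prime f) (pr_ne_two f) _ _ _ hx hb] at h1
  exact h1

theorem lamA_congr {s s' : ℕ} {f : Fin 3} {x : ℕ} (hx : x.Coprime (pr f))
    (h : sl s' ≤ se s) : lamA s f x ≡ lamA s' f x [MOD qq s' f] := by
  rw [← ZMod.natCast_eq_natCast_iff]
  unfold qq
  rw [lamA_cast_red s f x hx (cnt_mono f h), lamA_cast_red s' f x hx (cnt_mono f (sl_le_se s'))]

/-- equal hash values: the congruence -/
theorem vl_modEq {s : ℕ} {f : Fin 3} {c c' x x' : ℕ} (h : vl s f c x = vl s f c' x') :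
    c + lamA s f x' ≡ c' + lamA s f x [MOD qq s f] := by
  have hne : NeZero (pr f ^ cnt f (se s)) := ⟨(pow_pos (pr_prime f).pos _).ne'⟩
  unfold vl at h
  have h1 := ZMod.val_injective _ h
  rw [← lamA_cast, ← lamA_cast] at h1
  have h2 : ((c + lamA s f x' : ℕ) : ZMod (pr f ^ cnt f (se s))) = ((c' + lamA s f x : ℕ) :
      ZMod (pr f ^ cnt f (se s))) := by
    push_cast
    linear_combination h1
  rw [ZMod.natCast_eq_natCast_iff] at h2
  exact h2.of_dvd (pow_dvd_pow (pr f) (cnt_mono f (sl_le_se s)))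

theorem cA_modEq {s : ℕ} {y : Hit} (f : Fin 3) (h : Nj (sl s) * hv1 y ≤ hz y) :
    cA s y ≡ hz y [MOD qq s f] := by
  have h1 : hz y = cA s y + Nj (sl s) * hv1 y := by unfold cA; omega
  have h2 : Nj (sl s) * hv1 y ≡ 0 [MOD qq s f] :=
    (Nat.modEq_zero_iff_dvd).2 ((qq_dvd_Nj s f).mul_right _)
  have h3 := (Nat.ModEq.refl (n := qq s f) (cA s y)).add h2
  rw [← h1, add_zero] at h3
  exact h3.symm

/-- the side of `a` -/
theorem side_A {s : ℕ} {f : Fin 3} {y z : Hit} (hy : Nj (sl s) * hv1 y ≤ hz y)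
    (hz' : Nj (sl s) * hv1 z ≤ hz z)
    (h : vl s f (cA s y) (hx1 y f) = vl s f (cA s z) (hx1 z f)) :
    hz y + lamA s f (hx1 z f) ≡ hz z + lamA s f (hx1 y f) [MOD qq s f] := by
  have h1 := vl_modEq h
  have h2 := (cA_modEq f hy).add_right (lamA s f (hx1 z f))
  have h3 := (cA_modEq f hz').add_right (lamA s f (hx1 y f))
  exact h2.symm.trans (h1.trans h3)

/-- the side of `a'` -/
theorem side_B {s' n : ℕ} {f : Fin 3} {y z : Hit} (hy : hz y + Nj (sl s') * hv2 y ≤ n)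
    (hz' : hz z + Nj (sl s') * hv2 z ≤ n)
    (h : vl s' f (cB s' n y) (hx2 y f) = vl s' f (cB s' n z) (hx2 z f)) :
    hz z + lamA s' f (hx2 z f) ≡ hz y + lamA s' f (hx2 y f) [MOD qq s' f] := by
  have h1 := vl_modEq h
  have hN : ∀ u, Nj (sl s') * u ≡ 0 [MOD qq s' f] := fun u =>
    (Nat.modEq_zero_iff_dvd).2 ((qq_dvd_Nj s' f).mul_right _)
  have ey : cB s' n y + hz y + Nj (sl s') * hv2 y = n := by unfold cB; omega
  have ez : cB s' n z + hz z + Nj (sl s') * hv2 z = n := by unfold cB; omega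
  have h2 : cB s' n y + hz y ≡ n [MOD qq s' f] := by
    have := (Nat.ModEq.refl (n := qq s' f) (cB s' n y + hz y)).add (hN (hv2 y))
    rw [ey, add_zero] at this
    exact this.symm
  have h3 : cB s' n z + hz z ≡ n [MOD qq s' f] := by
    have := (Nat.ModEq.refl (n := qq s' f) (cB s' n z + hz z)).add (hN (hv2 z))
    rw [ez, add_zero] at this
    exact this.symm
  -- cB y + lam z = cB z + lam y, cB y + hz y = cB z + hz z
  have h4 : cB s' n y + hz y ≡ cB s' n z + hz z [MOD qq s' f] := h2.trans h3.symm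
  have h5 := h1.symm.add h4
  -- cB z + lam y + (cB y + hz y) ≡ cB y + lam z + (cB z + hz z)
  have h6 : (cB s' n y + cB s' n z) + (hz y + lamA s' f (hx2 y f)) ≡
      (cB s' n y + cB s' n z) + (hz z + lamA s' f (hx2 z f)) [MOD qq s' f] := by
    have e1 : (cB s' n y + cB s' n z) + (hz y + lamA s' f (hx2 y f)) =
        (cB s' n z + lamA s' f (hx2 y f)) + (cB s' n y + hz y) := by ring
    have e2 : (cB s' n y + cB s' n z) + (hz z + lamA s' f (hx2 z f)) =
        (cB s' n y + lamA s' f (hx2 z f)) + (cB s' n z + hz z) := by ring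
    rw [e1, e2]
    exact h5
  exact (Nat.ModEq.add_left_cancel' _ h6).symm

theorem mem_Ybox {s s' n A0 L : ℕ} {y : Hit} : y ∈ Ybox s s' n A0 L ↔
    (A0 ≤ hz y ∧ hz y < A0 + L) ∧ hv1 y < vhi s ∧ hv2 y < vhi s' ∧ hx1 y ∈ XX s ∧
      hx2 y ∈ XX s' ∧ Nj (sl s) * hv1 y ≤ hz y ∧ hz y + Nj (sl s') * hv2 y ≤ n := by
  unfold Ybox
  rw [Finset.mem_filter, Finset.mem_product, Finset.mem_product, Finset.mem_product,
    Finset.mem_product, Finset.mem_Ico, Finset.mem_range, Finset.mem_range]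
  tauto

theorem mem_Uc {s : ℕ} {x : Fin 3 → ℕ} (hx : x ∈ XX s) (f : Fin 3) : x f ∈ Uc s f := by
  unfold XX at hx
  rw [Fintype.mem_piFinset] at hx
  exact hx f

theorem mem_Uf {s : ℕ} {C : Finset (Fin 3)} {x0 x : Fin 3 → ℕ} (hx : x ∈ XX s)
    (h : ∀ f ∈ C, x0 f = x f) (f : Fin 3) : x f ∈ Uf s C x0 f := by
  unfold Uf
  split_ifs with hf
  · rw [Finset.mem_singleton]
    exact (h f hf).symm
  · exact mem_Uc hx f

/-- the residue on the side of `a` -/
noncomputable def rA (s : ℕ) (y : Hit) (f : Fin 3) : ℕ :=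
  hz y + (qq s f - 1) * lamA s f (hx1 y f)

/-- the residue on the side of `a'` -/
noncomputable def rB (s' n : ℕ) (y : Hit) (f : Fin 3) : ℕ :=
  n + (qq s' f - 1) * (hz y + lamA s' f (hx2 y f))

theorem add_pred_mul (q a : ℕ) (hq : 0 < q) : a + (q - 1) * a = q * a := by
  obtain ⟨k, rfl⟩ : ∃ k, q = k + 1 := ⟨q - 1, by omega⟩
  rw [Nat.add_sub_cancel]
  ring

theorem mem_Df {s s' n A0 L : ℕ} {C C' : Finset (Fin 3)} {y z : Hit}
    (hy : y ∈ Ybox s s' n A0 L) (hz' : z ∈ Ybox s s' n A0 L) (h : Cpt s s' n C C' y z)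
    (f : Fin 3) : (hx1 z f, hx2 z f) ∈
      Df s s' n C C' (hx1 y) (hx2 y) f (rA s y f) (rB s' n y f) (hz z) := by
  rw [mem_Ybox] at hy hz'
  obtain ⟨h1, h2, h3, h4⟩ := h
  unfold Df
  rw [mem_Dd]
  refine ⟨mem_Uf hz'.2.2.2.1 h1 f, mem_Uf hz'.2.2.2.2.1 h2 f, ?_, ?_⟩
  · intro hf
    have k1 := side_A hy.2.2.2.2.2.1 hz'.2.2.2.2.2.1 (h3 f hf)
    have k2 := k1.add_right ((qq s f - 1) * lamA s f (hx1 y f))
    have e1 : hz z + lamA s f (hx1 y f) + (qq s f - 1) * lamA s f (hx1 y f) =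
        hz z + qq s f * lamA s f (hx1 y f) := by
      rw [add_assoc, add_pred_mul _ _ (qq_pos s f)]
    have e2 : hz y + lamA s f (hx1 z f) + (qq s f - 1) * lamA s f (hx1 y f) =
        lamA s f (hx1 z f) + rA s y f := by unfold rA; ring
    rw [e1, e2] at k2
    have k3 : hz z + qq s f * lamA s f (hx1 y f) ≡ hz z [MOD qq s f] := by
      have := (Nat.ModEq.refl (n := qq s f) (hz z)).add
        ((Nat.modEq_zero_iff_dvd (n := qq s f)).2 (dvd_mul_right _ (lamA s f (hx1 y f))))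
      rwa [add_zero] at this
    exact k3.symm.trans k2.symm
  · intro hf
    have k1 := side_B hy.2.2.2.2.2.2 hz'.2.2.2.2.2.2 (h4 f hf)
    have k2 := k1.add_right (rB s' n y f)
    have e1 : hz y + lamA s' f (hx2 y f) + rB s' n y f =
        n + qq s' f * (hz y + lamA s' f (hx2 y f)) := by
      unfold rB
      rw [← add_pred_mul (qq s' f) (hz y + lamA s' f (hx2 y f)) (qq_pos s' f)]
      ring
    rw [e1] at k2
    have k3 : n + qq s' f * (hz y + lamA s' f (hx2 y f)) ≡ n [MOD qq s' f] := by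
      have := (Nat.ModEq.refl (n := qq s' f) n).add
        ((Nat.modEq_zero_iff_dvd (n := qq s' f)).2 (dvd_mul_right _ (hz y + lamA s' f (hx2 y f))))
      rwa [add_zero] at this
    exact (k2.trans k3).symm

open Classical in
/-- BLOCK F, piece (D): the number of compatible hits -/
theorem cpt_card (s s' n A0 L : ℕ) (C C' : Finset (Fin 3)) (y : Hit)
    (hy : y ∈ Ybox s s' n A0 L) (t k m : Fin 3 → ℕ) (hm : ∀ i, 0 < m i)
    (hcop : Pairwise (Function.onFun Nat.Coprime m))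
    (hloc : ∀ f r r', LocOK (Df s s' n C C' (hx1 y) (hx2 y) f r r') (t f) (k f) (m f)) :
    ((Ybox s s' n A0 L).filter (Cpt s s' n C C' y)).card ≤
      vhi s * vhi s' * ((∏ i, k i) * (∏ i, t i) * (L / (∏ i, m i) + 1)) := by
  have hcard := card_loc A0 L
    (fun f => Df s s' n C C' (hx1 y) (hx2 y) f (rA s y f) (rB s' n y f)) t k m hm hcop
    (fun f => hloc f _ _)
  refine le_trans ?_ (Nat.mul_le_mul_left (vhi s * vhi s') hcard)
  have h0 : vhi s * vhi s' = (range (vhi s) ×ˢ range (vhi s')).card := by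
    rw [Finset.card_product, Finset.card_range, Finset.card_range]
  rw [h0, ← Finset.card_product]
  apply Finset.card_le_card_of_injOn
    (fun z : Hit => ((hv1 z, hv2 z), (⟨hz z, fun f => (hx1 z f, hx2 z f)⟩ :
      (_ : ℕ) × (Fin 3 → ℕ × ℕ))))
  · intro z hz'
    have hz1 := Finset.mem_filter.1 (Finset.mem_coe.1 hz')
    have hz2 := mem_Ybox.1 hz1.1
    rw [Finset.mem_coe, Finset.mem_product, Finset.mem_product, Finset.mem_sigma,
      Finset.mem_Ico, Fintype.mem_piFinset, Finset.mem_range, Finset.mem_range]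
    exact ⟨⟨hz2.2.1, hz2.2.2.1⟩, hz2.1, fun f => mem_Df hy hz1.1 hz1.2 f⟩
  · rintro ⟨a, b, c, d, e⟩ _ ⟨a', b', c', d', e'⟩ _ h
    simp only [hv1, hv2, hz, hx1, hx2, Prod.mk.injEq, Sigma.mk.injEq, heq_eq_eq] at h
    obtain ⟨⟨h1, h2⟩, h3, h4⟩ := h
    have h5 : d = d' := funext (fun f => (Prod.mk.inj (congrFun h4 f)).1)
    have h6 : e = e' := funext (fun f => (Prod.mk.inj (congrFun h4 f)).2)
    rw [h1, h2, h3, h5, h6]

open Classical in
/-- the possible values of `z` -/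
theorem z_card (s s' n A0 L : ℕ) (C C' : Finset (Fin 3)) (y : Hit)
    (hy : y ∈ Ybox s s' n A0 L) (G G' : Finset (Fin 3)) (hGG : Disjoint G G')
    (hG : G ⊆ C \ frs (sl s) C) (hG' : G' ⊆ C' \ frs (sl s') C') :
    (((Ybox s s' n A0 L).filter (Cpt s s' n C C' y)).image hz).card ≤
      L / ((∏ f ∈ G, qq s f) * ∏ f ∈ G', qq s' f) + 1 := by
  set μ : Fin 3 → ℕ := fun f => (if f ∈ G then qq s f else 1) * (if f ∈ G' then qq s' f else 1)
    with hμ
  have hprod : ∏ f, μ f = (∏ f ∈ G, qq s f) * ∏ f ∈ G', qq s' f := by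
    rw [hμ, Finset.prod_mul_distrib, Finset.prod_ite_mem, Finset.prod_ite_mem,
      Finset.univ_inter, Finset.univ_inter]
  have hpos : ∀ f, 0 < μ f := by
    intro f
    rw [hμ]
    refine Nat.mul_pos ?_ ?_
    · split_ifs
      · exact qq_pos _ _
      · exact Nat.one_pos
    · split_ifs
      · exact qq_pos _ _
      · exact Nat.one_pos
  have hdvd : ∀ f, ∃ e, μ f ∣ pr f ^ e := by
    intro f
    refine ⟨cnt f (sl s) + cnt f (sl s'), ?_⟩
    rw [hμ, pow_add]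
    apply Nat.mul_dvd_mul
    · split_ifs
      · exact dvd_rfl
      · exact one_dvd _
    · split_ifs
      · exact dvd_rfl
      · exact one_dvd _
  have hcop : Pairwise (Function.onFun Nat.Coprime μ) := by
    intro f g hfg
    obtain ⟨e, he⟩ := hdvd f
    obtain ⟨e', he'⟩ := hdvd g
    have hc : Nat.Coprime (pr f ^ e) (pr g ^ e') :=
      Nat.Coprime.pow _ _ ((Nat.coprime_primes (pr_prime f) (pr_prime g)).mpr
        (fun h => hfg (pr_inj h)))
    exact Nat.Coprime.coprime_dvd_left he (Nat.Coprime.coprime_dvd_right he' hc)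
  rw [← hprod]
  refine le_trans (Finset.card_le_card ?_) (card_classes_le A0 L μ (fun _ => hz y) hpos hcop)
  intro w hw
  obtain ⟨z, hz', rfl⟩ := Finset.mem_image.1 hw
  have hz1 := Finset.mem_filter.1 hz'
  have hz2 := mem_Ybox.1 hz1.1
  have hy2 := mem_Ybox.1 hy
  obtain ⟨h1, h2, h3, h4⟩ := hz1.2
  simp only [Finset.mem_filter, Finset.mem_Ico]
  refine ⟨hz2.1, ?_⟩
  intro f
  rw [hμ]
  by_cases hf : f ∈ G
  · have hf' : f ∉ G' := Finset.disjoint_left.1 hGG hf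
    simp only [if_pos hf, if_neg hf', mul_one]
    have hC := Finset.mem_sdiff.1 (hG hf)
    have k1 := side_A hy2.2.2.2.2.2.1 hz2.2.2.2.2.2.1 (h3 f hC.2)
    rw [h1 f hC.1] at k1
    exact (Nat.ModEq.add_right_cancel' _ k1).symm
  · by_cases hf' : f ∈ G'
    · simp only [if_neg hf, if_pos hf', one_mul]
      have hC := Finset.mem_sdiff.1 (hG' hf')
      have k1 := side_B hy2.2.2.2.2.2.2 hz2.2.2.2.2.2.2 (h4 f hC.2)
      rw [h2 f hC.1] at k1
      exact Nat.ModEq.add_right_cancel' _ k1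
    · simp only [if_neg hf, if_neg hf', mul_one]
      exact Nat.modEq_one

open Classical in
/-- the possible pairs of one family -/
theorem pair_card (s s' n A0 L : ℕ) (C C' : Finset (Fin 3)) (y : Hit)
    (hy : y ∈ Ybox s s' n A0 L) (f : Fin 3) (hf : f ∉ frs (sl s) C) (hf' : f ∉ frs (sl s') C')
    (hs : sl s' ≤ sl s) (B : ℕ)
    (hB : ∀ tt, ((Uf s C (hx1 y) f ×ˢ Uf s' C' (hx2 y) f).filter
      (fun x => lamA s' f x.1 + lamA s' f x.2 ≡ tt [MOD qq s' f])).card ≤ B) :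
    (((Ybox s s' n A0 L).filter (Cpt s s' n C C' y)).image
      (fun z => (hx1 z f, hx2 z f))).card ≤ B := by
  refine le_trans (Finset.card_le_card ?_)
    (hB (lamA s' f (hx1 y f) + lamA s' f (hx2 y f)))
  intro w hw
  obtain ⟨z, hz', rfl⟩ := Finset.mem_image.1 hw
  have hz1 := Finset.mem_filter.1 hz'
  have hz2 := mem_Ybox.1 hz1.1
  have hy2 := mem_Ybox.1 hy
  obtain ⟨h1, h2, h3, h4⟩ := hz1.2
  rw [Finset.mem_filter, Finset.mem_product]
  refine ⟨⟨mem_Uf hz2.2.2.2.1 h1 f, mem_Uf hz2.2.2.2.2.1 h2 f⟩, ?_⟩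
  have hqd : qq s' f ∣ qq s f := pow_dvd_pow _ (cnt_mono f hs)
  have k1 := (side_A hy2.2.2.2.2.2.1 hz2.2.2.2.2.2.1 (h3 f hf)).of_dvd hqd
  have k2 := side_B hy2.2.2.2.2.2.2 hz2.2.2.2.2.2.2 (h4 f hf')
  have hle : sl s' ≤ se s := hs.trans (sl_le_se s)
  have c1 : lamA s f (hx1 z f) ≡ lamA s' f (hx1 z f) [MOD qq s' f] :=
    lamA_congr (XX_coprime hz2.2.2.2.1 f) hle
  have c2 : lamA s f (hx1 y f) ≡ lamA s' f (hx1 y f) [MOD qq s' f] :=
    lamA_congr (XX_coprime hy2.2.2.2.1 f) hle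
  have k3 : hz y + lamA s' f (hx1 z f) ≡ hz z + lamA s' f (hx1 y f) [MOD qq s' f] :=
    (c1.add_left (hz y)).symm.trans (k1.trans (c2.add_left (hz z)))
  have k4 := k3.add k2
  have e1 : hz y + lamA s' f (hx1 z f) + (hz z + lamA s' f (hx2 z f)) =
      (hz y + hz z) + (lamA s' f (hx1 z f) + lamA s' f (hx2 z f)) := by ring
  have e2 : hz z + lamA s' f (hx1 y f) + (hz y + lamA s' f (hx2 y f)) =
      (hz y + hz z) + (lamA s' f (hx1 y f) + lamA s' f (hx2 y f)) := by ring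
  rw [e1, e2] at k4
  exact Nat.ModEq.add_left_cancel' _ k4

end Pool.Agent.Helper75.T4
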