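import Mathlib

/-!
# Chernoff tails on finite product spaces, as counting statements (project T4, MP_12a1af_nt)
-/

set_option autoImplicit false
open Finset

namespace Pool.Agent.Helper75.T4

variable {ι : Type*} [Fintype ι] [DecidableEq ι] {α : ι → Type*} [∀ i, Fintype (α i)]
  [∀ i, DecidableEq (α i)]

/-- number of coordinates of `ω` which fall into the target sets -/
def hits (E : ∀ i, Finset (α i)) (ω : ∀ i, α i) : ℕ := (Finset.univ.filter fun i => ω i ∈ E i).card

/-- exponential moment of the number of hits -/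
theorem moment (E : ∀ i, Finset (α i)) (t : ℝ) :
    ∑ ω : (∀ i, α i), t ^ hits E ω =
      ∏ i, (((Fintype.card (α i) : ℝ) - (E i).card) + t * (E i).card) := by
  have h1 : ∀ ω : (∀ i, α i), t ^ hits E ω = ∏ i, (if ω i ∈ E i then t else 1) := by
    intro ω
    rw [hits, Finset.prod_ite, Finset.prod_const, Finset.prod_const_one, mul_one]
  rw [Finset.sum_congr rfl fun ω _ => h1 ω]
  have h2 : ∀ i, (((Fintype.card (α i) : ℝ) - (E i).card) + t * (E i).card) =
      ∑ a : α i, (if a ∈ E i then t else 1) := by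
    intro i
    rw [Finset.sum_ite, Finset.sum_const, Finset.sum_const, nsmul_eq_mul, nsmul_eq_mul, mul_one]
    have e1 : (Finset.univ.filter fun a : α i => a ∈ E i) = E i := by ext a; simp
    have e2 : ((Finset.univ.filter fun a : α i => a ∉ E i).card : ℝ) =
        (Fintype.card (α i) : ℝ) - (E i).card := by
      have h := Finset.card_filter_add_card_filter_not (s := (Finset.univ : Finset (α i)))
        (fun a => a ∈ E i)
      rw [e1, Finset.card_univ] at h
      have : ((E i).card : ℝ) + ((Finset.univ.filter fun a : α i => a ∉ E i).card : ℝ) =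
        Fintype.card (α i) := by exact_mod_cast h
      linarith
    rw [e1, e2]; ring
  rw [Finset.prod_congr rfl fun i _ => h2 i, Finset.prod_univ_sum]
  simp [Fintype.piFinset_univ]

/-- the mean number of hits -/
noncomputable def mean (E : ∀ i, Finset (α i)) : ℝ :=
  ∑ i, ((E i).card : ℝ) / (Fintype.card (α i) : ℝ)

theorem moment_le [∀ i, Nonempty (α i)] (E : ∀ i, Finset (α i)) {t : ℝ} (ht : 0 ≤ t) :
    ∑ ω : (∀ i, α i), t ^ hits E ω ≤
      (Fintype.card (∀ i, α i) : ℝ) * Real.exp ((t - 1) * mean E) := by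
  rw [moment]
  have hcard : (Fintype.card (∀ i, α i) : ℝ) = ∏ i, (Fintype.card (α i) : ℝ) := by
    rw [Fintype.card_pi]; push_cast; rfl
  have hexp : Real.exp ((t - 1) * mean E) =
      ∏ i, Real.exp ((t - 1) * (((E i).card : ℝ) / (Fintype.card (α i) : ℝ))) := by
    rw [← Real.exp_sum, mean, Finset.mul_sum]
  rw [hcard, hexp, ← Finset.prod_mul_distrib]
  apply Finset.prod_le_prod
  · intro i _
    have h1 : ((E i).card : ℝ) ≤ Fintype.card (α i) := by exact_mod_cast Finset.card_le_univ _
    have h2 : (0 : ℝ) ≤ t * (E i).card := by positivity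
    linarith
  · intro i _
    have hpos : (0 : ℝ) < Fintype.card (α i) := by exact_mod_cast Fintype.card_pos
    have h3 := Real.add_one_le_exp ((t - 1) * (((E i).card : ℝ) / (Fintype.card (α i) : ℝ)))
    have h4 : ((Fintype.card (α i) : ℝ) - (E i).card) + t * (E i).card =
        (Fintype.card (α i) : ℝ) *
          ((t - 1) * (((E i).card : ℝ) / (Fintype.card (α i) : ℝ)) + 1) := by
      field_simp
      ring
    rw [h4]
    exact mul_le_mul_of_nonneg_left h3 hpos.le

/-- LOWER TAIL: at most `e^(-μ/4)` of the points have at most `μ/4` hits -/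
theorem lower_tail [∀ i, Nonempty (α i)] (E : ∀ i, Finset (α i)) :
    ((Finset.univ.filter fun ω : (∀ i, α i) => (4 * hits E ω : ℝ) ≤ mean E).card : ℝ) ≤
      (Fintype.card (∀ i, α i) : ℝ) * Real.exp (-(mean E / 4)) := by
  set B := Finset.univ.filter fun ω : (∀ i, α i) => (4 * hits E ω : ℝ) ≤ mean E with hB
  have h1 := moment_le E (t := 1 / 2) (by norm_num)
  have h2 : (B.card : ℝ) * Real.exp (-(mean E / 4)) ≤
      ∑ ω : (∀ i, α i), (1 / 2 : ℝ) ^ hits E ω := by
    calc (B.card : ℝ) * Real.exp (-(mean E / 4)) = ∑ _ω ∈ B, Real.exp (-(mean E / 4)) := by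
          rw [Finset.sum_const, nsmul_eq_mul]
      _ ≤ ∑ ω ∈ B, (1 / 2 : ℝ) ^ hits E ω := by
          apply Finset.sum_le_sum
          intro ω hω
          rw [hB, Finset.mem_filter] at hω
          have h3 : (1 / 2 : ℝ) ^ hits E ω = Real.exp (-(Real.log 2 * hits E ω)) := by
            rw [Real.exp_neg, Real.exp_mul, Real.exp_log (by norm_num), Real.rpow_natCast]
            rw [one_div, inv_pow]
          rw [h3]
          apply Real.exp_le_exp.2
          have h4 : Real.log 2 ≤ 1 := by linarith [Real.log_two_lt_d9]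
          have h5 : (0 : ℝ) ≤ hits E ω := by positivity
          nlinarith [hω.2]
      _ ≤ _ := Finset.sum_le_sum_of_subset_of_nonneg (Finset.subset_univ _)
          (fun ω _ _ => by positivity)
  have h6 : (B.card : ℝ) * Real.exp (-(mean E / 4)) ≤
      (Fintype.card (∀ i, α i) : ℝ) * Real.exp ((1 / 2 - 1) * mean E) := h2.trans h1
  have h7 : Real.exp ((1 / 2 - 1) * mean E) = Real.exp (-(mean E / 4)) * Real.exp (-(mean E / 4)) := by
    rw [← Real.exp_add]; congr 1; ring
  rw [h7, ← mul_assoc] at h6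
  exact le_of_mul_le_mul_right h6 (Real.exp_pos _)

/-- UPPER TAIL: at most `(e μ / T)^T` of the points have at least `T` hits, for `μ ≤ T` -/
theorem upper_tail [∀ i, Nonempty (α i)] (E : ∀ i, Finset (α i)) {T : ℕ} {μ : ℝ} (hT : 1 ≤ T)
    (hμ0 : 0 < μ) (hμ : mean E ≤ μ) (hμT : μ ≤ T) :
    ((Finset.univ.filter fun ω : (∀ i, α i) => T ≤ hits E ω).card : ℝ) ≤
      (Fintype.card (∀ i, α i) : ℝ) * (Real.exp 1 * μ / T) ^ T := by
  set B := Finset.univ.filter fun ω : (∀ i, α i) => T ≤ hits E ω with hB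
  have hTpos : (0 : ℝ) < T := by exact_mod_cast hT
  set t : ℝ := T / μ with ht
  have ht1 : 1 ≤ t := by rw [ht, le_div_iff₀ hμ0]; linarith
  have h1 := moment_le E (t := t) (by linarith)
  have h2 : (B.card : ℝ) * t ^ T ≤ ∑ ω : (∀ i, α i), t ^ hits E ω := by
    calc (B.card : ℝ) * t ^ T = ∑ _ω ∈ B, t ^ T := by
          rw [Finset.sum_const, nsmul_eq_mul]
      _ ≤ ∑ ω ∈ B, t ^ hits E ω := by
          apply Finset.sum_le_sum
          intro ω hω
          rw [hB, Finset.mem_filter] at hω
          exact pow_le_pow_right₀ ht1 hω.2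
      _ ≤ _ := Finset.sum_le_sum_of_subset_of_nonneg (Finset.subset_univ _)
          (fun ω _ _ => by positivity)
  have h3 : Real.exp ((t - 1) * mean E) ≤ Real.exp 1 ^ T := by
    rw [← Real.exp_nat_mul]
    apply Real.exp_le_exp.2
    have : (t - 1) * mean E ≤ (t - 1) * μ := mul_le_mul_of_nonneg_left hμ (by linarith)
    have h4 : t * μ = T := by rw [ht]; field_simp
    nlinarith
  have h5 : (B.card : ℝ) * t ^ T ≤ (Fintype.card (∀ i, α i) : ℝ) * Real.exp 1 ^ T :=
    h2.trans (h1.trans (mul_le_mul_of_nonneg_left h3 (by positivity)))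
  have h6 : (Fintype.card (∀ i, α i) : ℝ) * (Real.exp 1 * μ / T) ^ T * t ^ T =
      (Fintype.card (∀ i, α i) : ℝ) * Real.exp 1 ^ T := by
    rw [mul_assoc, ← mul_pow]
    congr 2
    rw [ht]; field_simp
  rw [← h6] at h5
  exact le_of_mul_le_mul_right h5 (by positivity)

end Pool.Agent.Helper75.T4
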